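import Pool.Agent.Lib.MP_3f635c_an.Main

set_option autoImplicit false

namespace Pool.Agent.Results.MP_3f635c_an.NotAlgebra

open MeasureTheory

/-- X is a Banach space of functions analytic in the unit disc (x is the function ι x on the
disc) with continuous point evaluations and isometric rotations, satisfying conditions 1-3. -/
structure Admissible (X : Type) [NormedAddCommGroup X] [NormedSpace ℂ X]
    (ι : X →ₗ[ℂ] (ℂ → ℂ)) : Prop where
  complete : CompleteSpace X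
  analytic : ∀ x : X, DifferentiableOn ℂ (ι x) (Metric.ball 0 1)
  faithful : ∀ x : X, (∀ w ∈ Metric.ball (0 : ℂ) 1, ι x w = 0) → x = 0
  eval_continuous : ∀ w ∈ Metric.ball (0 : ℂ) 1, Continuous fun x : X => ι x w
  rotation : ∀ (x : X) (t : ℝ), ∃ y : X, ‖y‖ = ‖x‖ ∧ ∀ w ∈ Metric.ball (0 : ℂ) 1,
    ι y w = ι x (Complex.exp (t * Complex.I) * w)
  poly_mem : ∀ p : Polynomial ℂ, ∃ x : X, ∀ w ∈ Metric.ball (0 : ℂ) 1, ι x w = p.eval w
  poly_dense : Dense {x : X | ∃ p : Polynomial ℂ, ∀ w ∈ Metric.ball (0 : ℂ) 1, ι x w = p.eval w}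
  shift : ∃ S : X →L[ℂ] X, (∀ x : X, ∀ w ∈ Metric.ball (0 : ℂ) 1, ι (S x) w = w * ι x w) ∧
    spectralRadius ℂ S = 1
  backward_shift : ∃ B : X →L[ℂ] X,
    (∀ x : X, ∀ w ∈ Metric.ball (0 : ℂ) 1, w * ι (B x) w = ι x w - ι x 0) ∧
    spectralRadius ℂ B = 1

/-- f lies in the symbol space ST(X): f is essentially bounded on the circle and the map sending
a polynomial p to the Riesz projection of f p extends to a bounded operator on X. -/
def InST (X : Type) [NormedAddCommGroup X] [NormedSpace ℂ X] (ι : X →ₗ[ℂ] (ℂ → ℂ))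
    (f : UnitAddCircle → ℂ) : Prop :=
  MemLp f ⊤ AddCircle.haarAddCircle ∧
    ∃ T : X →L[ℂ] X, ∀ (p : Polynomial ℂ) (x : X),
      (∀ w ∈ Metric.ball (0 : ℂ) 1, ι x w = p.eval w) →
        ∀ w ∈ Metric.ball (0 : ℂ) 1,
          HasSum (fun k : ℕ =>
            fourierCoeff (fun t : UnitAddCircle => f t * p.eval (fourier 1 t)) k * w ^ k)
            (ι (T x) w)

theorem result :
    ∃ (X : Type) (_ : NormedAddCommGroup X) (_ : NormedSpace ℂ X) (ι : X →ₗ[ℂ] (ℂ → ℂ)),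
      Admissible X ι ∧
        ∃ f : UnitAddCircle → ℂ, Continuous f ∧ InST X ι f ∧
          MemLp (f * f) ⊤ AddCircle.haarAddCircle ∧ ¬ InST X ι (f * f) := by
  refine ⟨Lib.MP_3f635c_an.XX, inferInstance, inferInstance, Lib.MP_3f635c_an.iota,
    ⟨inferInstance, Lib.MP_3f635c_an.iota_differentiableOn, Lib.MP_3f635c_an.iota_injective,
      fun _ hw => Lib.MP_3f635c_an.iota_continuous hw, Lib.MP_3f635c_an.exists_rot,
      Lib.MP_3f635c_an.exists_iota_poly, Lib.MP_3f635c_an.dense_poly,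
      ⟨Lib.MP_3f635c_an.sh 1, Lib.MP_3f635c_an.iota_sh_one,
        Lib.MP_3f635c_an.spectralRadius_sh_one⟩,
      ⟨Lib.MP_3f635c_an.sh (-1), Lib.MP_3f635c_an.iota_sh_neg_one,
        Lib.MP_3f635c_an.spectralRadius_sh_neg_one⟩⟩,
    Lib.MP_3f635c_an.ff, Lib.MP_3f635c_an.ff.continuous,
    ⟨Lib.MP_3f635c_an.memLp_CT _, Lib.MP_3f635c_an.TT, Lib.MP_3f635c_an.toeplitz_ff⟩,
    Lib.MP_3f635c_an.memLp_CT (Lib.MP_3f635c_an.ff * Lib.MP_3f635c_an.ff), ?_⟩
  rintro ⟨-, T, hT⟩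
  exact Lib.MP_3f635c_an.not_toeplitz_sq T hT

end Pool.Agent.Results.MP_3f635c_an.NotAlgebra
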